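import Pool.Agent.R330.RothV

set_option autoImplicit false

namespace Pool.Agent.Results.MP_d14747_lc.RothbergerUpward

open R330.Roth

universe u

/-- Let `M` be a transitive class which is a model of ZFC (for example `M = L`), and let `τ` be a
topology on the set `X` in `M`. If `M` satisfies that player II has a winning strategy in the Rothberger
game on `(X, τ)`, then in `V` the family generated by the base `τ` is a topology on `X`, and player
II has a winning strategy in the Rothberger game on `X` with this topology. -/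
theorem result (M : Set ZFSet.{u}) (hM : ModelsZFC M) (X τ : ZFSet.{u}) (hX : X ∈ M) (hτ : τ ∈ M)
    (hT : IsTopology M X τ) (h : TwoWins M X τ) :
    IsTopology Set.univ X (generated X τ) ∧ TwoWins Set.univ X (generated X τ) := by
  refine ⟨⟨fun O hO => (mem_generated.1 hO).1, ?_, ?_, ?_⟩, two_wins_of hM hX hτ h⟩
  · exact mem_generated.2 ⟨fun _ h => h, fun x hx => ⟨X, hT.whole, hx, fun _ h => h⟩⟩
  · intro O hO O' hO'
    obtain ⟨h1, h2⟩ := mem_generated.1 hO
    obtain ⟨_, h4⟩ := mem_generated.1 hO'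
    refine mem_generated.2 ⟨fun x hx => h1 (ZFSet.mem_inter.1 hx).1, fun x hx => ?_⟩
    obtain ⟨hx1, hx2⟩ := ZFSet.mem_inter.1 hx
    obtain ⟨U, hU, hxU, hUO⟩ := h2 x hx1
    obtain ⟨U', hU', hxU', hUO'⟩ := h4 x hx2
    refine ⟨U ∩ U', hT.inter U hU U' hU', ZFSet.mem_inter.2 ⟨hxU, hxU'⟩, fun z hz => ?_⟩
    obtain ⟨hz1, hz2⟩ := ZFSet.mem_inter.1 hz
    exact ZFSet.mem_inter.2 ⟨hUO hz1, hUO' hz2⟩
  · intro A _ hA
    refine mem_generated.2 ⟨fun x hx => ?_, fun x hx => ?_⟩
    · obtain ⟨O, hO, hxO⟩ := ZFSet.mem_sUnion.1 hx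
      exact (mem_generated.1 (hA hO)).1 hxO
    · obtain ⟨O, hO, hxO⟩ := ZFSet.mem_sUnion.1 hx
      obtain ⟨U, hU, hxU, hUO⟩ := (mem_generated.1 (hA hO)).2 x hxO
      exact ⟨U, hU, hxU, fun z hz => ZFSet.mem_sUnion.2 ⟨O, hO, hUO hz⟩⟩

end Pool.Agent.Results.MP_d14747_lc.RothbergerUpward
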